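import Pool.Agent.Run7.h460.QD.NumF

/-!
# Rank zero over infinitely many number fields for the twists inside arbitrary dense sets

`E_n : y² + n y = x³`. Let `M` be a finite set of primes `≡ 1` modulo `9` and `Ω = ℚ(ω, ∛l : l ∈ M)`, a
Galois extension of `ℚ` of degree `2 · 3 ^ |M|`. The global fields `k` of the theorem are all the number
fields contained in `Ω`; as `M` varies, these are infinitely many fields, of arbitrarily large degree.
`D` runs through the family of the squarefree numbers, prime to `3` and `M`, not `±1` modulo `9`, with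
exactly one prime factor `≡ 2` modulo `3`. The multipliers are the cube-free numbers prime to `M` all of
whose prime factors are `1` modulo `9`. `c = ∏_{i ≥ 1} (1 - 3^{-i}) = 0.5601...`.

* Let `A` be an arbitrary subset of the family, of upper density at least `δ`, and `T` a finite set of
  multipliers. For all but at most `4 |T|² 9 ^ |M| / ε²` multipliers `m` the `D ∈ A` such that for all
  `t ∈ T` and for all number fields `k ⊆ Ω` the rank of `E_{D m t}(k)` is zero (all the fields and all the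
  curves at the same time), and `Ш(E_{D m t} / Ω)[3^∞]` is killed by `3 ^ |M|`, have upper density at
  least `δ c ^ (|T| 3 ^ |M|) - ε`. The number of exceptions does not depend on `A`.
* If `A` is the whole family, then without exceptions (`m = 1`) the lower density is at least
  `c ^ (|T| 3 ^ |M|)`.

The case `A =` the family, `T = {1}` is the starting file `MP_7cad78_nt/AllSubfieldsRankZero` (project JL,
R432/JG, by helper962, helper159, helper152, helper916, helper258, helper432), whose arithmetic is used.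
The passage to dense sets is the second moment method, after helper428. Over `ℚ` (`M = ∅`) see
`MP_6073f3_nt/DenseSetsOfTwists`, which has all patterns and the L-functions.
-/

set_option autoImplicit false

open scoped Classical
open Filter Topology NumberField

namespace Pool.Agent.Results.MP_81dc49_nt.DenseSetsOverNumberFields

/-- The curve `E_n : y² + n y = x³` over `L`. -/
def curve (n : ℕ) (L : Type) [Field L] : WeierstrassCurve L := ⟨0, 0, (n : L), 0, 0⟩

/-- The family: `D` is squarefree, not divisible by `3` and by the elements of `M`, not `±1` modulo `9`,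
and divisible by exactly one prime that is `2` modulo `3`. -/
def Family (M : Finset ℕ) (D : ℕ) : Prop :=
  Squarefree D ∧ ¬ 3 ∣ D ∧ D % 9 ≠ 1 ∧ D % 9 ≠ 8 ∧ (∀ l ∈ M, ¬ l ∣ D) ∧
    ∃ q : ℕ, q.Prime ∧ q % 3 = 2 ∧ q ∣ D ∧ ∀ p : ℕ, p.Prime → p ∣ D → p ≠ q → p % 3 = 1

/-- The multipliers: cube-free numbers not divisible by the elements of `M`, all of whose prime factors
are `1` modulo `9`. -/
def IsMultiplier (M : Finset ℕ) (m : ℕ) : Prop :=
  m ≠ 0 ∧ (∀ p : ℕ, p.Prime → ¬ p ^ 3 ∣ m) ∧ (∀ p : ℕ, p.Prime → p ∣ m → p % 9 = 1) ∧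
    ∀ l ∈ M, ¬ l ∣ m

/-- The cube-free part of `n`: the exponents are reduced modulo `3`. (`E_n` and `E_{n r³}` are
isomorphic.) -/
noncomputable def cubeFreePart (n : ℕ) : ℕ := n.factorization.prod fun p e => p ^ (e % 3)

/-- `Ω` is generated by `ω` and cube roots of the elements of `M`. -/
def Closure (M : Finset ℕ) (Ω : Type) [Field Ω] : Prop :=
  ∃ (ω : Ω) (r : ℕ → Ω), ω ^ 2 + ω + 1 = 0 ∧ (∀ l ∈ M, r l ^ 3 = (l : Ω)) ∧
    ∀ S : Subfield Ω, ω ∈ S → (∀ l ∈ M, r l ∈ S) → S = ⊤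

/-- The field `k` can be embedded in a number field `Ω = ℚ(ω, ∛l : l ∈ M)`. -/
def Inside (M : Finset ℕ) (k : Type) [Field k] : Prop :=
  ∃ (Ω : Type) (_ : Field Ω) (_ : NumberField Ω), Closure M Ω ∧ Nonempty (k →+* Ω)

/-- `E_{n'}`, `n'` the cube-free part of `n`, has rank zero (finitely many points) over all the number
fields inside `Ω`, and `Ш(E_{n'} / Ω)[3^∞]` is killed by `3 ^ |M|`. -/
def RankZeroInside (M : Finset ℕ) (n : ℕ) : Prop :=
  (∀ (k : Type) [Field k] [NumberField k], Inside M k →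
    Finite (curve (cubeFreePart n) k).toAffine.Point) ∧
  ∀ (Ω : Type) [Field Ω] [NumberField Ω], Closure M Ω →
    ∀ (i : ℕ) (x : Pool.Agent.TH841.NF.D.Sha (curve (cubeFreePart n) Ω)), 3 ^ i • x = 0 →
      3 ^ M.card • x = 0

/-- The number of the `D ≤ X` of the family that belong to `A`. -/
noncomputable def count (M : Finset ℕ) (A : Set ℕ) (X : ℕ) : ℕ :=
  ((Finset.Icc 1 X).filter fun D => Family M D ∧ D ∈ A).card

/-- The upper density of `A` in the family is at least `δ`. -/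
def UpperDensity (M : Finset ℕ) (A : Set ℕ) (δ : ℝ) : Prop :=
  ∀ ε : ℝ, 0 < ε → ∃ᶠ X : ℕ in atTop, (δ - ε) * (count M Set.univ X : ℝ) ≤ (count M A X : ℝ)

/-- `c = ∏_{i ≥ 1} (1 - 3^{-i})`. -/
noncomputable def c : ℝ := ∏' i : ℕ, (1 - (1 / 3 : ℝ) ^ (i + 1))

section proof

open Run7.h460.JL.Mix (cn UD)
open Run7.h460.QD.Q (SC cf IsMult IsNine cn_card cn_univ tw_all AllGood mem_SC)
open Pool.Agent.R432.JG (Cl cl_iff all_goodK pts_emb exists_genK)

variable {M : Finset ℕ}

theorem fam_iff (D : ℕ) : Family M D ↔ Cl M D := by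
  rw [cl_iff]
  unfold Family
  exact Iff.rfl

theorem mult_iff (m : ℕ) : IsMultiplier M m ↔ IsMult m ∧ ∀ l ∈ M, ¬ l ∣ m := by
  unfold IsMultiplier IsMult
  tauto

theorem count_eq (A : Set ℕ) (X : ℕ) : (count M A X : ℝ) = cn (SC M X) A :=
  (cn_card fam_iff A X).symm

theorem count_univ (X : ℕ) : (count M Set.univ X : ℝ) = ((SC M X).card : ℝ) :=
  (count_eq _ _).trans (cn_univ X)

theorem ud_iff (A : Set ℕ) (δ : ℝ) : UpperDensity M A δ ↔ UD (SC M) A δ := by
  unfold UpperDensity UD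
  simp only [count_eq, cn_univ]

theorem inside (hM : ∀ l ∈ M, l.Prime ∧ l % 9 = 1) {D n : ℕ} (hD : Cl M D) (hn : IsNine n)
    (hcop : ∀ l ∈ M, ¬ l ∣ n) (hg : AllGood M (D * n)) : RankZeroInside M (D * n) := by
  obtain ⟨h1, h2, -⟩ := tw_all hM hD hn hcop
  have key : ∀ (Ω : Type) [Field Ω] [NumberField Ω], Closure M Ω →
      Module.finrank ℚ Ω = 2 * 3 ^ M.card ∧
      Finite (curve (cubeFreePart (D * n)) Ω).toAffine.Point ∧
      ∀ (i : ℕ) (x : Pool.Agent.TH841.NF.D.Sha (curve (cubeFreePart (D * n)) Ω)), 3 ^ i • x = 0 →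
        3 ^ M.card • x = 0 := by
    rintro Ω _ _ ⟨ω, r, a1, a2, a3⟩
    exact all_goodK h1 h2 hg ω a1 r a2 a3
  refine ⟨?_, fun Ω _ _ hΩ => (key Ω hΩ).2.2⟩
  rintro k _ _ ⟨Ω, i1, i2, h3, ⟨f⟩⟩
  exact pts_emb f (key Ω h3).2.1

end proof

open Run7.h460.JL.Mix (cn UD)
open Run7.h460.QD.Q (SC cf IsMult IsNine AllGood mem_SC)
open Pool.Agent.R432.JG (Cl cl_iff)

/-- **Main theorem.** -/
theorem result (M : Finset ℕ) (hM : ∀ l ∈ M, l.Prime ∧ l % 9 = 1) :
    (0.56 : ℝ) < c ∧ Tendsto (fun X => count M Set.univ X) atTop atTop ∧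
    (∃ (Ω : Type) (_ : Field Ω) (_ : NumberField Ω), Closure M Ω) ∧
    -- dense sets, with an explicit number of exceptions
    (∀ (A : Set ℕ) (δ : ℝ), UpperDensity M A δ →
      ∀ T : Finset ℕ, (∀ t ∈ T, IsMultiplier M t) → ∀ ε : ℝ, 0 < ε →
      ∀ F : Finset ℕ, (∀ m ∈ F, IsMultiplier M m) →
      4 * ((T.card : ℝ) * 3 ^ M.card) ^ 2 / ε ^ 2 < F.card →
      ∃ m ∈ F, UpperDensity M {D | D ∈ A ∧ ∀ t ∈ T, RankZeroInside M (D * (m * t))}
        (δ * c ^ (T.card * 3 ^ M.card) - ε)) ∧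
    -- the whole family
    ∀ T : Finset ℕ, (∀ t ∈ T, IsMultiplier M t) → ∀ ε : ℝ, 0 < ε → ∀ᶠ X in atTop,
      (c ^ (T.card * 3 ^ M.card) - ε) * (count M Set.univ X : ℝ) ≤
        (count M {D | ∀ t ∈ T, RankZeroInside M (D * t)} X : ℝ) := by
  refine ⟨Pool.Agent.R432.JG.c3_gt, ?_, ?_, ?_, ?_⟩
  · rw [← tendsto_natCast_atTop_iff (R := ℝ)]
    refine (Run7.h460.QD.Q.card_tendsto hM).congr fun X => ?_
    rw [count_univ]
  · obtain ⟨L, i1, i2, z, r, h1, h2, h3⟩ := Pool.Agent.R432.JG.exists_genK M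
    exact ⟨L, i1, i2, z, r, h1, h2, h3⟩
  · intro A δ hA T hT ε hε F hF hc
    obtain ⟨m, hm, h⟩ := Run7.h460.QD.Q.mix_nf hM (fun t ht => (mult_iff t).1 (hT t ht))
      ((ud_iff A δ).1 hA) hε (fun m hm => (mult_iff m).1 (hF m hm)) hc
    refine ⟨m, hm, (ud_iff _ _).2 ?_⟩
    have e : δ * c ^ (T.card * 3 ^ M.card) - ε =
        Pool.Agent.Y703.CX.c3 ^ (T.card * 3 ^ M.card) * δ - ε := by
      show δ * c ^ (T.card * 3 ^ M.card) - ε = c ^ (T.card * 3 ^ M.card) * δ - ε
      ring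
    rw [e]
    refine Run7.h460.QD.Q.UD.congr' h fun X D hD hDA => ⟨hDA.1, fun t ht => ?_⟩
    have h1 := (mult_iff m).1 (hF m hm)
    have h2 := (mult_iff t).1 (hT t ht)
    refine inside hM (mem_SC hD) (h1.1.nine.mul h2.1.nine) (fun l hl hd => ?_) (hDA.2 t ht)
    rcases (Nat.Prime.dvd_mul (hM l hl).1).1 hd with h3 | h3
    · exact h1.2 l hl h3
    · exact h2.2 l hl h3
  · intro T hT ε hε
    have h := Run7.h460.QD.Q.law_nf hM (fun t ht => (mult_iff t).1 (hT t ht))
    have h1 := h.eventually (lt_mem_nhds (show Pool.Agent.Y703.CX.c3 ^ (T.card * 3 ^ M.card) - ε <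
      Pool.Agent.Y703.CX.c3 ^ (T.card * 3 ^ M.card) by linarith))
    filter_upwards [h1, Pool.Agent.R432.JG.ev_pos hM] with X hX hX0
    have hX0' : (0 : ℝ) < ((SC M X).card : ℝ) := hX0
    rw [lt_div_iff₀ hX0'] at hX
    rw [count_univ, count_eq]
    refine hX.le.trans (Run7.h460.QD.Q.cn_le fun D hD hg t ht => ?_)
    have h2 := (mult_iff t).1 (hT t ht)
    exact inside hM (mem_SC hD) h2.1.nine h2.2 (hg t ht)

end Pool.Agent.Results.MP_81dc49_nt.DenseSetsOverNumberFields
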