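import Pool.Agent.Run7.h61.JT.All
import Pool.Agent.Run7.h61.LD.All

/-!
# Fifty-fifty jointly for several quadratic twists: independent coins

`K` is any number field, and `d_1, …, d_n` are nonzero integers of `K` which are different modulo squares
(`d_i d_j` is not a square in `K` for `i ≠ j`); `d_i = 1` is allowed.  For the curve `E : y² = x³ + ax + b`
over the integers of `K` let `E_i` be the quadratic twist `d_i y² = x³ + ax + b`, that is the curve
`y² = x³ + d_i² a x + d_i³ b`.

Birch and Swinnerton-Dyer: `B_Z(E) = ∏_{Nv ≤ Z} #E(k_v) / Nv` (good places) should grow as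
`(log Z)^rank`.  Let `M_Z = ∏_{Nv ≤ Z} (1 - 1/Nv)⁻¹`, so `log M_Z = log log Z + O(1)` (first clause), and
let `R_i` be the integer nearest to `log B_Z(E_i) / log M_Z`, the rank of the twist `E_i` which the numbers
of its points modulo the primes up to `Z` suggest.  The pairs `(a, b)` run through a box whose two sides are
at least `exp(Z^(1+θ))`, and arbitrary otherwise.

1. (Joint central limit theorem.)  The `n` numbers `(log B_Z(E_i) - (1/2) log M_Z) / √(log M_Z)` have, in the
   limit, the law of `n` independent standard normal variables.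
2. (Independent fair coins.)  The vector `(R_1, …, R_n)` has, in the limit, the law of `n` independent fair
   coins with the values `0` and `1`: for every set `A` of integral vectors the proportion of the
   curves with `(R_i) ∈ A` tends to the number of the elements of `{0,1}^n` in `A`, divided by `2^n`,
   uniformly in `A`.
3. (Binomial law.)  The proportion of the curves with `R_1 + … + R_n = k` tends to `C(n,k) / 2^n`.  If the
   `d_i` represent all elements of a finite subgroup of `K^* / K^*2` then `∑ rank E_i(K)` is the rank of `E`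
   over the extension of `K` generated by the `√d_i`: over a multiquadratic extension of degree `n` one
   expects, and finds here for the products, a binomial law and the average `n/2` instead of one half and
   one half.
-/

set_option autoImplicit false
open NumberField IsDedekindDomain Polynomial

namespace Pool.Agent.Results.MP_81dc49_nt.IndependentCoinsForTwists

open Run7.h9.BS Run7.h61.LD Run7.h61.HK Run7.h61.JT

/-- **The fifty-fifty law jointly for the quadratic twists.** -/
theorem result (K : Type) [Field K] [NumberField K] :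
    (∃ C : ℝ, ∀ Z : ℕ, 3 ≤ Z → |Real.log (zetaProd K Z) - Real.log (Real.log Z)| ≤ C) ∧
    ∀ (n : ℕ) (d : Fin n → 𝓞 K), (∀ i, d i ≠ 0) →
      (∀ i j, i ≠ j → ¬ IsSquare (algebraMap (𝓞 K) K (d i * d j))) →
    ∀ (ι : Type) [Fintype ι] [DecidableEq ι] (ω : Module.Basis ι ℤ (𝓞 K)) (θ : ℝ), 0 < θ → ∀ ε : ℝ, 0 < ε →
      -- the joint central limit theorem
      (∀ a : Fin n → ℝ, ∃ Z₀ : ℕ, ∀ Z : ℕ, Z₀ ≤ Z →
        ∀ H : Fin 2 ⊕ Empty → ℕ, (∀ j, Real.exp ((Z : ℝ) ^ (1 + θ)) ≤ H j) →
        |prop ω H smooth (fun t => ∀ i, Real.log (bsd Z (twist (d i) t)) ≤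
          1 / 2 * Real.log (zetaProd K Z) + a i * Real.sqrt (Real.log (zetaProd K Z))) - ∏ i, Phi (a i)| ≤ ε) ∧
      -- independent fair coins
      (∃ Z₀ : ℕ, ∀ Z : ℕ, Z₀ ≤ Z →
        ∀ H : Fin 2 ⊕ Empty → ℕ, (∀ j, Real.exp ((Z : ℝ) ^ (1 + θ)) ≤ H j) →
        ∀ A : Set (Fin n → ℤ), |prop ω H smooth (fun t => (fun i => rankGuess Z (twist (d i) t)) ∈ A) -
          (Nat.card {e : Fin n → Fin 2 // (fun i => ((e i : ℕ) : ℤ)) ∈ A} : ℝ) / 2 ^ n| ≤ ε) ∧
      -- the binomial law
      (∃ Z₀ : ℕ, ∀ Z : ℕ, Z₀ ≤ Z →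
        ∀ H : Fin 2 ⊕ Empty → ℕ, (∀ j, Real.exp ((Z : ℝ) ^ (1 + θ)) ≤ H j) →
        ∀ k : ℕ, |prop ω H smooth (fun t => ∑ i, rankGuess Z (twist (d i) t) = (k : ℤ)) -
          (n.choose k : ℝ) / 2 ^ n| ≤ ε) :=
  ⟨mertens_zeta K, fun _ _ hd hij _ _ _ ω _ hθ _ hε =>
    ⟨fun a => clt hd hij ω hθ a hε, coins hd hij ω hθ hε, binomial hd hij ω hθ hε⟩⟩

end Pool.Agent.Results.MP_81dc49_nt.IndependentCoinsForTwists
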