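import Mathlib
import Pool.Agent.Run7.h69.KA6

/-!
# Rational points and `Ш[2]` of twists at the integers where given polynomials are prime

Let `a_1, …, a_{2g+1}` be distinct integers, `g ≥ 1`, let `f` be any polynomial with integer
coefficients and let `q_1, …, q_r` be irreducible polynomials of positive degree with integer
coefficients, no two of them associated, `r ≥ 1`. For the integers `t` with `f(t) ≠ 0` let `J_t` be
the Jacobian of the curve `y² = f(t) (x - a_1) ⋯ (x - a_{2g+1})`; for `g = 1` it is the quadratic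
twist by `f(t)` of an elliptic curve with full rational 2-torsion. It is proved that for every `k`
and every `ε > 0` the sum of `(#(J_t(ℚ) / 2 J_t(ℚ)) · #Ш(J_t)[2]) ^ k` over the integers `t` of an
interval `(x, x + H]` for which all the `|q_i(t)|` are primes is at most `C H / (log H) ^ r`,
uniformly in `x` and `H ≥ |x| ^ ε`. For example, for `q_1 = X` and `x = 0` this says that all the
moments are bounded on average over the primes `t ≤ H`, for the twists by `t + 2` or `t ^ 2 + 1`
say. By the theorem of Mordell and Weil the order of `J_t(ℚ) / 2 J_t(ℚ)` is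
`2 ^ (rank J_t(ℚ) + 2 g)`.

As the curve has one point at infinity and this point is rational, `J_t(L)` is the Picard group of
the affine coordinate ring `L[x, y] / (y² - f(t) ∏ (x - a_i))` for every extension `L` of `ℚ`. The
classes of `Ш` are the classes of continuous cocycles of the absolute Galois group of `ℚ` in
`J_t(ℚ^sep)` which are trivial over `ℚ_p` for every prime `p` (nothing is asked at the real place, so
that the group is at least as large as the Tate-Shafarevich group).
-/

namespace Pool.Agent.Results.MP_81dc49_nt.TwistsAtPrimeValues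

open Finset Polynomial IsDedekindDomain
open Pool.Agent.Y713.Jac (J Cochain IsCocycle IsCoboundary IsLocallyTrivial)

section
variable {K : Type} [Field K] (F : K[X]) (R : Type) [CommRing R] [IsDedekindDomain R] [Algebra R K]
  [IsFractionRing R K]

/-- the group `J(K) / 2 J(K)` for the Jacobian `J` of `y ^ 2 = F(x)` -/
abbrev PointsModTwo : Type := J 2 F K ⧸ (powMonoidHom 2 : J 2 F K →* J 2 F K).range

/-- the continuous cocycles `f` of the Galois group of `K` in `J(K^sep)` which are trivial over the
completions of `K` at all the maximal ideals of `R` and for which `2 f` is a coboundary (the groups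
`J` are written multiplicatively) -/
abbrev Cocycles : Type := {f : Cochain 2 F // IsCocycle 2 F f ∧ IsLocallyTrivial 2 F R f ∧
  IsCoboundary 2 F (fun σ => f σ ^ 2)}

/-- two cocycles are equivalent if their difference is a coboundary -/
def cohomologous : Setoid (Cocycles F R) where
  r f g := IsCoboundary 2 F (fun σ => f.1 σ / g.1 σ)
  iseqv := (Run7.h69.JB.setoid2 F R).iseqv

/-- the elements of order two of the group of the locally trivial classes of `H ^ 1 (K, J)` -/
abbrev ShaTwo : Type := Quotient (cohomologous F R)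

end

/-- the polynomial `d ∏ (x - a_i)` -/
noncomputable def curve {n : ℕ} (a : Fin n → ℤ) (d : ℤ) : ℚ[X] :=
  C (d : ℚ) * ∏ i, (X - C (a i : ℚ))

open Classical in
/-- All moments of the orders of `J_t(ℚ) / 2 J_t(ℚ)` and `Ш(J_t)[2]` over the integers `t` of a short
interval at which the irreducible polynomials `q_i` have prime values. -/
theorem result (g : ℕ) (hg : 1 ≤ g) (a : Fin (2 * g + 1) → ℤ) (ha : Function.Injective a)
    (f : ℤ[X]) (r : ℕ) (_hr : 1 ≤ r) (q : Fin r → ℤ[X]) (hq : ∀ i, Irreducible (q i))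
    (hqd : ∀ i, 0 < (q i).natDegree) (hqa : ∀ i j, i ≠ j → ¬ Associated (q i) (q j))
    (k : ℕ) (ε : ℝ) (hε : 0 < ε) : ∃ C : ℝ, ∀ (x : ℤ) (H : ℕ), 2 ≤ H → |(x : ℝ)| ^ ε ≤ H →
      ∑ t ∈ (Ioc x (x + H)).filter
          (fun t => f.eval t ≠ 0 ∧ ∀ i, ((q i).eval t).natAbs.Prime),
        ((Nat.card (PointsModTwo (curve a (f.eval t))) : ℝ) *
          Nat.card (ShaTwo (curve a (f.eval t)) ℤ)) ^ k ≤ C * (H / (Real.log H) ^ r) := by
  have hn : Odd (2 * g + 1) := ⟨g, rfl⟩
  set M : ℕ := ⌈1 / ε⌉₊ with hM
  obtain ⟨C, hC⟩ := Run7.h69.KA.jac (K := 2 * g) ha hn (by omega) f hq hqa hqd k M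
  refine ⟨C, fun x H hH hx => ?_⟩
  have hHr : (1 : ℝ) ≤ H := by exact_mod_cast (by omega : 1 ≤ H)
  have h1 : x.natAbs ≤ H ^ M := by
    have h2 : |(x : ℝ)| ≤ (H : ℝ) ^ (M : ℝ) := by
      calc |(x : ℝ)| = (|(x : ℝ)| ^ ε) ^ (1 / ε) := by
            rw [← Real.rpow_mul (abs_nonneg _), mul_one_div_cancel hε.ne', Real.rpow_one]
        _ ≤ (H : ℝ) ^ (1 / ε) := Real.rpow_le_rpow (by positivity) hx (by positivity)
        _ ≤ (H : ℝ) ^ (M : ℝ) := Real.rpow_le_rpow_of_exponent_le hHr (Nat.le_ceil _)
    rw [Real.rpow_natCast] at h2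
    have h3 : ((x.natAbs : ℕ) : ℝ) = |(x : ℝ)| := by
      rw [Nat.cast_natAbs, Int.cast_abs]
    have h4 : ((x.natAbs : ℕ) : ℝ) ≤ ((H ^ M : ℕ) : ℝ) := by
      rw [h3]
      push_cast
      exact h2
    exact_mod_cast h4
  refine le_trans (le_of_eq ?_) (hC x H hH h1)
  refine sum_congr rfl fun t _ => ?_
  congr 1
  have h5 : Run7.h69.JB.nW a (f.eval t) = Nat.card (PointsModTwo (curve a (f.eval t))) *
      Nat.card (ShaTwo (curve a (f.eval t)) ℤ) := Nat.card_prod _ _
  rw [h5]
  push_cast
  rfl

end Pool.Agent.Results.MP_81dc49_nt.TwistsAtPrimeValues
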