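import Pool.Agent.Run7.h286.PL.EllLaw
import Mathlib.Analysis.Asymptotics.Lemmas
import Mathlib.Analysis.Asymptotics.SpecificAsymptotics

/-!
# The quadratic twists of an elliptic curve over `k(t)`, ordered by the height of their equations:
average rank, rank zero, parity

Let `k` be a finite field of characteristic at least five with `q` elements, `K = k(t)`, and
`E : y ^ 2 = x ^ 3 + a x + b` with `a`, `b` in `k[t]`, `deg a ≤ 4 N`, `deg b ≤ 6 N`, `N ≥ 1`, such that
`4 a ^ 3 + 27 b ^ 2` is squarefree and `x ^ 3 + a_∞ x + b_∞` is irreducible over `k`, where `a_∞`, `b_∞` are the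
coefficients of `t ^ (4 N)`, `t ^ (6 N)` in `a`, `b`. These are a positive proportion of all `(a, b)`.

Let `S_B` be the set of the page: the equations `y ^ 2 = x ^ 3 + A x + A'` with heights `H(A) ≤ B`, `H(A') ≤ B`
(`H(A) = q ^ (deg A)` for polynomials). The equations `(A, A') = (a D ^ 2, b D ^ 3)` with `D` squarefree and prime
to `4 a ^ 3 + 27 b ^ 2` are the quadratic twists `E_D` of `E`. We consider all of them in `S_B`, `B → ∞`.

Theorem. Among the twists `E_D` in `S_B`, as `B → ∞` (`q`, `a`, `b` are fixed):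
1. the proportion with `dim Sel_2(E_D) = d` tends to
   `p_d = ∏_{j ≥ 0} (1 + 2 ^ (-j)) ^ (-1) ∏_{i = 1}^d 2 / (2 ^ i - 1)`, the law of the page for `p = 2`;
2. the average of `|Sel_2(E_D)|` tends to `3`, that of `|Sel_2(E_D)| ^ j` to `(1 + 2) ... (1 + 2 ^ j)`;
3. the dimension of `Sel_2(E_D)` is even for a proportion tending to `1 / 2`;
4. the average of `dim Sel_2(E_D)` tends to `∑_{j ≥ 0} 1 / (2 ^ j + 1) < 1.2646`.

So among these equations of `S_B` the upper average rank is at most `1.2646`, the rank is `0` with lower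
density at least `p_0 > 0.2097`, and the rank is `0` or `1` with lower density at least `0.629`.

The proof: the theorem of `Pool/Agent/Run7/h286/PL/EllLaw.lean` (project PRL of helper286) for the twists
whose `D` has degree `m` and leading coefficient `u`, and a summation over all `u` and over `m < M(B)`.

Authors of this file: helper716. Projects PRL (helper286, with helpers 160, 209, 212, 215, 216, 270, 303,
382, 416, 502, 547, 704, 711, 760, 803, 824, 847, 908, 957) and TG (helper784, with helpers 68, 81, 286,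
382, 646, 688, 711, 760, 779, 781, 811, 886, 908, 973), and the libraries TS (helper875), PJ and JB
(helper352) and PP (helper874).
-/

set_option autoImplicit false
set_option linter.all false

namespace Pool.Agent.Results.MP_81dc49_nt.TwistsByHeight

open Polynomial Filter
open scoped Classical Topology
open Run7.h286.SelDef (Selmer selmerRank Meaning)
open Run7.h286.EllLaw (InFamily Values PositiveProportion Twists twist prob)

section defs

variable {k : Type} [Field k]

/-- The height `q ^ (deg a)` of a polynomial `a`, `q` the number of elements of `k`. -/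
noncomputable def height (a : k[X]) : ℝ := (Nat.card k : ℝ) ^ a.natDegree

/-- The squarefree `D` prime to `4 a ^ 3 + 27 b ^ 2` such that the coefficients of the equation
`y ^ 2 = x ^ 3 + a D ^ 2 x + b D ^ 3` of the twist by `D` have heights at most `B`. -/
def UpTo (a b : k[X]) (B : ℝ) : Set k[X] :=
  {D | Squarefree D ∧ IsCoprime D (4 * a ^ 3 + 27 * b ^ 2) ∧
    height (a * D ^ 2) ≤ B ∧ height (b * D ^ 3) ≤ B}

/-- The mean of `F(D)` over the twists of height at most `B` tends to `l` as `B → ∞`. -/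
def MeanByHeight (a b : k[X]) (F : k[X] → ℝ) (l : ℝ) : Prop :=
  Tendsto (fun B : ℝ => (∑ᶠ D ∈ UpTo a b B, F D) / ((UpTo a b B).ncard : ℝ)) atTop (𝓝 l)

/-- The proportion of the twists of height at most `B` with the property `P` tends to `l` as `B → ∞`. -/
def ProbByHeight (a b : k[X]) (P : k[X] → Prop) (l : ℝ) : Prop :=
  Tendsto (fun B : ℝ => (({D ∈ UpTo a b B | P D} : Set k[X]).ncard : ℝ) /
    ((UpTo a b B).ncard : ℝ)) atTop (𝓝 l)

variable (K : Type) [Field K] [Algebra k[X] K] [IsFractionRing k[X] K]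

/-- The law, the parity and the moments of the 2-Selmer groups of the twists, ordered by height. -/
structure LawByHeight (a b : k[X]) : Prop where
  law : ∀ d : ℕ, ProbByHeight a b (fun D => Nat.card (Selmer k (twist K a b D)) = 2 ^ d) (prob d)
  parity : ProbByHeight a b (fun D => Even (selmerRank k (twist K a b D))) (1 / 2)
  moments : ∀ j : ℕ, MeanByHeight a b (fun D => (Nat.card (Selmer k (twist K a b D)) : ℝ) ^ j)
    (∏ i ∈ Finset.Icc 1 j, (1 + (2 : ℝ) ^ i))
  means : ∀ φ : ℕ → ℝ, (∃ C y : ℝ, ∀ d, |φ d| ≤ C * y ^ d) →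
    MeanByHeight a b (fun D => φ (selmerRank k (twist K a b D))) (∑' d, prob d * φ d)
  meaning : ∀ B : ℝ, ∀ D ∈ UpTo a b B, Meaning k (twist K a b D)
  equations : ∀ B : ℝ, Set.InjOn (fun D => (a * D ^ 2, b * D ^ 3)) (UpTo a b B)

end defs

section analysis

/-- Cumulative means. -/
theorem cumulative {ι : Type} [Fintype ι] [Nonempty ι] {n s : ι → ℕ → ℝ} {l : ℝ}
    (h0 : ∀ i m, 0 ≤ n i m) (h1 : ∀ i, ∀ᶠ m in atTop, 1 ≤ n i m)
    (h : ∀ i, Tendsto (fun m => s i m / n i m) atTop (𝓝 l)) :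
    Tendsto (fun M => (∑ m ∈ Finset.range M, ∑ i, s i m) / ∑ m ∈ Finset.range M, ∑ i, n i m)
      atTop (𝓝 l) := by
  have a1 : ∀ i, (fun m => s i m - l * n i m) =o[atTop] fun m => ∑ i, n i m := by
    intro i
    have b1 : (fun m => s i m - l * n i m) =o[atTop] n i := by
      rw [Asymptotics.isLittleO_iff_tendsto']
      · have b2 := (h i).sub_const l
        rw [sub_self] at b2
        refine b2.congr' ?_
        filter_upwards [h1 i] with m hm
        have : n i m ≠ 0 := by linarith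
        field_simp
      · filter_upwards [h1 i] with m hm h2
        rw [h2] at hm
        linarith
    refine b1.trans_isBigO (Asymptotics.isBigO_of_le _ fun m => ?_)
    rw [Real.norm_of_nonneg (h0 i m), Real.norm_of_nonneg (Finset.sum_nonneg fun i _ => h0 i m)]
    exact Finset.single_le_sum (f := fun i => n i m) (fun i _ => h0 i m) (Finset.mem_univ i)
  have a2 : (fun m => ∑ i, (s i m - l * n i m)) =o[atTop] fun m => ∑ i, n i m :=
    (Asymptotics.IsLittleO.sum (s := Finset.univ) fun i _ => a1 i).congr_left fun m => by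
      rw [Finset.sum_apply]
  have hnn : ∀ m, 0 ≤ ∑ i, n i m := fun m => Finset.sum_nonneg fun i _ => h0 i m
  have a3 : Tendsto (fun M => ∑ m ∈ Finset.range M, ∑ i, n i m) atTop atTop := by
    obtain ⟨i₀⟩ := (inferInstance : Nonempty ι)
    have c1 := h1 i₀
    rw [eventually_atTop] at c1
    obtain ⟨m₀, hm₀⟩ := c1
    refine tendsto_atTop_mono' _ (f₁ := fun M : ℕ => (M : ℝ) - m₀) ?_ ?_
    · filter_upwards [eventually_ge_atTop m₀] with M hM
      have c2 : ∑ m ∈ Finset.Ico m₀ M, (1 : ℝ) ≤ ∑ m ∈ Finset.range M, ∑ i, n i m := by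
        refine (Finset.sum_le_sum (g := fun m => ∑ i, n i m) fun m hm => ?_).trans
          (Finset.sum_le_sum_of_subset_of_nonneg ?_ fun m _ _ => hnn m)
        · rw [Finset.mem_Ico] at hm
          exact (hm₀ m hm.1).trans (Finset.single_le_sum (f := fun i => n i m)
            (fun i _ => h0 i m) (Finset.mem_univ i₀))
        · intro m hm
          rw [Finset.mem_Ico] at hm
          exact Finset.mem_range.2 hm.2
      rw [Finset.sum_const, Nat.card_Ico, nsmul_eq_mul, mul_one, Nat.cast_sub hM] at c2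
      exact c2
    · exact tendsto_atTop_add_const_right _ _ tendsto_natCast_atTop_atTop
  have a4 := a2.sum_range hnn a3
  have a5 := a4.tendsto_div_nhds_zero
  have a6 := a5.add_const l
  rw [zero_add] at a6
  refine a6.congr' ?_
  filter_upwards [a3.eventually_gt_atTop 0] with M hM
  have e : ∑ m ∈ Finset.range M, ∑ i, (s i m - l * n i m) =
      (∑ m ∈ Finset.range M, ∑ i, s i m) - l * ∑ m ∈ Finset.range M, ∑ i, n i m := by
    rw [Finset.mul_sum, ← Finset.sum_sub_distrib]
    refine Finset.sum_congr rfl fun m _ => ?_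
    rw [Finset.mul_sum, ← Finset.sum_sub_distrib]
  rw [e]
  field_simp
  ring

theorem ncard_sep {α : Type} {S : Set α} (hS : S.Finite) (p : α → Prop) :
    ∑ᶠ D ∈ S, (if p D then (1 : ℝ) else 0) = (({D ∈ S | p D} : Set α).ncard : ℝ) := by
  have h1 : {D ∈ S | p D} = ((hS.toFinset.filter p : Finset α) : Set α) := by
    ext D
    simp
  rw [finsum_mem_eq_finite_toFinset_sum _ hS, Finset.sum_boole, h1, Set.ncard_coe_finset]

theorem exists_min {P : ℕ → Prop} (h : ∃ m, ¬ P m) : ∃ M, ¬ P M ∧ ∀ m < M, P m :=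
  ⟨Nat.find h, Nat.find_spec h, fun m hm => not_not.1 (Nat.find_min h hm)⟩

/-- The bound for the degree. -/
theorem bound {q : ℝ} (hq : 1 < q) (α β : ℕ) : ∃ M : ℝ → ℕ,
    (∀ (B : ℝ) (m : ℕ), (q ^ (α + 2 * m) ≤ B ∧ q ^ (β + 3 * m) ≤ B) ↔ m < M B) ∧
    Tendsto M atTop atTop := by
  have h1 : ∀ B : ℝ, ∃ M : ℕ, ∀ m : ℕ,
      (q ^ (α + 2 * m) ≤ B ∧ q ^ (β + 3 * m) ≤ B) ↔ m < M := by
    intro B
    have h2 : ∃ m : ℕ, ¬ (q ^ (α + 2 * m) ≤ B ∧ q ^ (β + 3 * m) ≤ B) := by
      obtain ⟨n, hn⟩ := pow_unbounded_of_one_lt B hq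
      refine ⟨n, fun h => ?_⟩
      have : q ^ n ≤ q ^ (α + 2 * n) := pow_le_pow_right₀ hq.le (by omega)
      linarith [h.1]
    obtain ⟨M, h3, h4⟩ := exists_min h2
    refine ⟨M, fun m => ⟨fun h => ?_, h4 m⟩⟩
    by_contra hm
    push Not at hm
    exact h3 ⟨(pow_le_pow_right₀ hq.le (by omega)).trans h.1,
      (pow_le_pow_right₀ hq.le (by omega)).trans h.2⟩
  choose M hM using h1
  refine ⟨M, hM, tendsto_atTop.2 fun n => ?_⟩
  filter_upwards [eventually_ge_atTop (max (q ^ (α + 2 * n)) (q ^ (β + 3 * n)))] with B hB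
  exact ((hM B n).1 ⟨(le_max_left _ _).trans hB, (le_max_right _ _).trans hB⟩).le

end analysis

section main

open Run7.h286.PL.Ell (pol)

variable {k : Type} [Field k] [Finite k]

theorem not_irr : ¬ Irreducible (X ^ 3 : k[X]) := by
  intro h
  rcases h.isUnit_or_isUnit (show (X : k[X]) ^ 3 = X * X ^ 2 by ring) with h | h
  · exact not_isUnit_X h
  · exact not_isUnit_X ((isUnit_pow_iff (by norm_num)).1 h)

theorem ne_zero_of {N : ℕ} {a b : k[X]} (hN : 1 ≤ N) (h : InFamily N a b) : a ≠ 0 ∧ b ≠ 0 := by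
  have key : ∀ c e : k[X], Squarefree (e * (c * c)) → c.natDegree = 0 := by
    intro c e h1
    exact natDegree_eq_zero_of_isUnit (h1 c ⟨e, by ring⟩)
  have hinf := h.inert
  have hs := h.squarefree
  constructor
  · rintro rfl
    rw [show (4 * 0 ^ 3 + 27 * b ^ 2 : k[X]) = 27 * (b * b) by ring] at hs
    have hb := key b _ hs
    rw [coeff_zero, coeff_eq_zero_of_natDegree_lt (by omega : b.natDegree < 6 * N), C_0, zero_mul,
      add_zero, add_zero] at hinf
    exact not_irr hinf
  · rintro rfl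
    rw [show (4 * a ^ 3 + 27 * 0 ^ 2 : k[X]) = (4 * a) * (a * a) by ring] at hs
    have ha := key a _ hs
    rw [coeff_zero, coeff_eq_zero_of_natDegree_lt (by omega : a.natDegree < 4 * N), C_0, zero_mul,
      add_zero, add_zero] at hinf
    exact not_irr hinf

theorem one_lt_card : (1 : ℝ) < (Nat.card k : ℝ) := by
  exact_mod_cast Finite.one_lt_card

/-- The twists of height at most `B` and the twists of degree `m` with leading coefficient `u`. -/
theorem upTo_eq {a b : k[X]} (ha : a ≠ 0) (hb : b ≠ 0) : ∃ M : ℝ → ℕ, Tendsto M atTop atTop ∧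
    ∀ (B : ℝ) (D : k[X]), D ∈ UpTo a b B ↔
      ∃ m < M B, ∃ u : kˣ, D ∈ Twists a b (u : k) m := by
  obtain ⟨M, h1, h2⟩ := bound (one_lt_card (k := k)) a.natDegree b.natDegree
  refine ⟨M, h2, fun B D => ?_⟩
  have e : ∀ D : k[X], D ≠ 0 → height (a * D ^ 2) = (Nat.card k : ℝ) ^ (a.natDegree +
      2 * D.natDegree) ∧ height (b * D ^ 3) = (Nat.card k : ℝ) ^ (b.natDegree +
      3 * D.natDegree) := by
    intro D hD
    unfold height
    rw [natDegree_mul ha (pow_ne_zero _ hD), natDegree_mul hb (pow_ne_zero _ hD), natDegree_pow,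
      natDegree_pow]
    exact ⟨rfl, rfl⟩
  constructor
  · rintro ⟨h3, h4, h5, h6⟩
    have hD : D ≠ 0 := h3.ne_zero
    rw [(e D hD).1] at h5
    rw [(e D hD).2] at h6
    exact ⟨D.natDegree, (h1 B _).1 ⟨h5, h6⟩, Units.mk0 D.leadingCoeff
      (leadingCoeff_ne_zero.2 hD), rfl, rfl, h3, h4⟩
  · rintro ⟨m, hm, u, h3, h4, h5, h6⟩
    have hD : D ≠ 0 := h5.ne_zero
    have h7 := (h1 B m).2 hm
    rw [← h4, ← (e D hD).1, ← (e D hD).2] at h7
    exact ⟨h5, h6, h7.1, h7.2⟩

variable (K : Type) [Field K] [Algebra k[X] K] [IsFractionRing k[X] K]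

theorem twists_fin {N : ℕ} {r : k[X]} {a b : k[X]} (hf : Run7.h784.TG.Fm 1 N r (pol a b)) {u : k}
    (hu : u ≠ 0) (m : ℕ) : (Twists a b u m).Finite := by
  rw [Run7.h286.EllLaw.twists_eq]
  exact Run7.h286.PL.twu_fin hf hu m

/-- Sums over the twists of height at most `B`. -/
theorem sum_upTo {N : ℕ} {r : k[X]} {a b : k[X]} (hf : Run7.h784.TG.Fm 1 N r (pol a b))
    [Fintype kˣ] {B : ℝ} {M : ℕ} (hM : ∀ D : k[X], D ∈ UpTo a b B ↔
      ∃ m < M, ∃ u : kˣ, D ∈ Twists a b (u : k) m) :
    (UpTo a b B).Finite ∧ ∀ F : k[X] → ℝ, ∑ᶠ D ∈ UpTo a b B, F D =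
      ∑ m ∈ Finset.range M, ∑ u : kˣ, ∑ᶠ D ∈ Twists a b (u : k) m, F D := by
  have hfin := fun (u : kˣ) (m : ℕ) => twists_fin hf u.ne_zero m
  set T : ℕ × kˣ → Finset k[X] := fun p => (hfin p.2 p.1).toFinset with hT
  have h1 : UpTo a b B = (((Finset.range M ×ˢ Finset.univ).biUnion T : Finset k[X]) :
      Set k[X]) := by
    ext D
    rw [hM]
    simp only [hT, Finset.coe_biUnion, Set.mem_iUnion, Finset.mem_coe, Finset.mem_product,
      Finset.mem_range, Finset.mem_univ, and_true, Set.Finite.mem_toFinset, Prod.exists,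
      exists_prop]
    constructor
    · rintro ⟨m, hm, u, hD⟩
      exact ⟨m, u, hm, hD⟩
    · rintro ⟨m, u, hm, hD⟩
      exact ⟨m, hm, u, hD⟩
  refine ⟨by rw [h1]; exact Finset.finite_toSet _, fun F => ?_⟩
  rw [h1, finsum_mem_coe_finset, Finset.sum_biUnion, Finset.sum_product]
  · refine Finset.sum_congr rfl fun m _ => Finset.sum_congr rfl fun u _ => ?_
    rw [finsum_mem_eq_finite_toFinset_sum _ (hfin u m)]
  · intro p _ p' _ hpp
    rw [Function.onFun, Finset.disjoint_left]
    intro D h2 h3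
    apply hpp
    simp only [hT, Set.Finite.mem_toFinset] at h2 h3
    refine Prod.ext (h2.2.1.symm.trans h3.2.1) (Units.ext (h2.1.symm.trans h3.1))

/-- The means for the ordering by height from the means for the ordering by degree. -/
theorem by_height {N : ℕ} {r : k[X]} {a b : k[X]} (hf : Run7.h784.TG.Fm 1 N r (pol a b))
    (ha : a ≠ 0) (hb : b ≠ 0) {F : k[X] → ℝ} {l : ℝ}
    (h : ∀ u : kˣ, Tendsto (fun m => (∑ᶠ D ∈ Twists a b (u : k) m, F D) /
      ((Twists a b (u : k) m).ncard : ℝ)) atTop (𝓝 l)) :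
    MeanByHeight a b F l := by
  haveI : Fintype kˣ := Fintype.ofFinite _
  obtain ⟨M, h1, h2⟩ := upTo_eq ha hb
  have hn : ∀ (u : kˣ) (m : ℕ), ((Twists a b (u : k) m).ncard : ℝ) =
      ∑ᶠ D ∈ Twists a b (u : k) m, (1 : ℝ) := by
    intro u m
    have hfin := twists_fin hf u.ne_zero m
    rw [finsum_mem_eq_finite_toFinset_sum _ hfin, Finset.sum_const, nsmul_eq_mul, mul_one,
      Set.ncard_eq_toFinset_card _ hfin]
  have h3 : ∀ u : kˣ, ∀ᶠ m in atTop, (1 : ℝ) ≤ ((Twists a b (u : k) m).ncard : ℝ) := by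
    intro u
    have h4 := Run7.h286.EllLaw.mean (FractionRing k[X]) hf u.ne_zero (fun _ => (1 : ℝ))
      ⟨1, 1, fun d => by simp⟩
    have h5 : ∑' d, prob d * (1 : ℝ) = 1 := by
      simp only [mul_one]
      exact Run7.h286.EllLaw.values.sum.tsum_eq
    rw [h5] at h4
    filter_upwards [h4.eventually (lt_mem_nhds (show (0 : ℝ) < 1 by norm_num))] with m hm
    have h6 : (Twists a b (u : k) m).ncard ≠ 0 := by
      intro h0
      rw [h0, Nat.cast_zero, div_zero] at hm
      exact lt_irrefl _ hm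
    exact_mod_cast Nat.one_le_iff_ne_zero.2 h6
  have h7 := cumulative (ι := kˣ) (n := fun u m => ((Twists a b (u : k) m).ncard : ℝ))
    (s := fun u m => ∑ᶠ D ∈ Twists a b (u : k) m, F D) (fun u m => Nat.cast_nonneg _) h3 h
  refine (h7.comp h1).congr fun B => ?_
  obtain ⟨h8, h9⟩ := sum_upTo (B := B) hf (h2 B)
  have h10 : ((UpTo a b B).ncard : ℝ) = ∑ᶠ D ∈ UpTo a b B, (1 : ℝ) := by
    rw [finsum_mem_eq_finite_toFinset_sum _ h8, Finset.sum_const, nsmul_eq_mul, mul_one,
      Set.ncard_eq_toFinset_card _ h8]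
  rw [Function.comp_apply, h10, h9, h9]
  simp only [hn]

theorem mean_height {N : ℕ} {r : k[X]} {a b : k[X]} (hf : Run7.h784.TG.Fm 1 N r (pol a b))
    (ha : a ≠ 0) (hb : b ≠ 0) (φ : ℕ → ℝ) (hφ : ∃ C y : ℝ, ∀ d, |φ d| ≤ C * y ^ d) :
    MeanByHeight a b (fun D => φ (selmerRank k (twist K a b D))) (∑' d, prob d * φ d) :=
  by_height hf ha hb fun u => Run7.h286.EllLaw.mean K hf u.ne_zero φ hφ

theorem one_height {N : ℕ} {r : k[X]} {a b : k[X]} (hf : Run7.h784.TG.Fm 1 N r (pol a b))
    (ha : a ≠ 0) (hb : b ≠ 0) {B : ℝ} {D : k[X]} (hD : D ∈ UpTo a b B) :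
    Nat.card (Selmer k (twist K a b D)) = 2 ^ selmerRank k (twist K a b D) ∧
    Meaning k (twist K a b D) := by
  obtain ⟨M, h1, h2⟩ := upTo_eq ha hb
  obtain ⟨m, hm, u, h3⟩ := (h2 B D).1 hD
  obtain ⟨h4, h5, h6⟩ := Run7.h286.EllLaw.one K hf u.ne_zero h3
  exact ⟨by rw [h4, h5], h6⟩

theorem fin_height {N : ℕ} {r : k[X]} {a b : k[X]} (hf : Run7.h784.TG.Fm 1 N r (pol a b))
    (ha : a ≠ 0) (hb : b ≠ 0) (B : ℝ) : (UpTo a b B).Finite := by
  haveI : Fintype kˣ := Fintype.ofFinite _
  obtain ⟨M, h1, h2⟩ := upTo_eq ha hb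
  exact (sum_upTo (B := B) hf (h2 B)).1

/-- Proportions. -/
theorem prob_height {N : ℕ} {r : k[X]} {a b : k[X]} (hf : Run7.h784.TG.Fm 1 N r (pol a b))
    (ha : a ≠ 0) (hb : b ≠ 0) (P : ℕ → Prop) :
    ProbByHeight a b (fun D => P (selmerRank k (twist K a b D)))
      (∑' d, prob d * if P d then 1 else 0) := by
  refine (mean_height K hf ha hb (fun d => if P d then 1 else 0)
    ⟨1, 1, fun d => by split_ifs <;> simp⟩).congr fun B => ?_
  rw [ncard_sep (fin_height hf ha hb B)]

/-- The theorem for one pair `(a, b)`. -/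
theorem lawByHeight {N : ℕ} {r : k[X]} {a b : k[X]} (hf : Run7.h784.TG.Fm 1 N r (pol a b))
    (ha : a ≠ 0) (hb : b ≠ 0) : LawByHeight K a b := by
  have hv := Run7.h286.EllLaw.values
  refine ⟨fun d => ?_, ?_, fun j => ?_, fun φ hφ => mean_height K hf ha hb φ hφ,
    fun B D hD => (one_height K hf ha hb hD).2, fun B D hD D' hD' hh => ?_⟩
  · have h1 := prob_height K hf ha hb (fun e => e = d)
    rw [tsum_eq_single d (fun e he => by rw [if_neg he, mul_zero]), if_pos rfl, mul_one] at h1
    refine h1.congr fun B => ?_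
    have h2 : ({D ∈ UpTo a b B | selmerRank k (twist K a b D) = d} : Set k[X]) =
        {D ∈ UpTo a b B | Nat.card (Selmer k (twist K a b D)) = 2 ^ d} := by
      ext D
      refine and_congr_right fun hD => ?_
      rw [(one_height K hf ha hb hD).1]
      exact (Nat.pow_right_injective le_rfl).eq_iff.symm
    rw [h2]
  · have h1 := prob_height K hf ha hb (fun e => Even e)
    have h2 : ∑' d, prob d * @ite ℝ (Even d) (Classical.propDecidable _) 1 0 = 1 / 2 := by
      have h3 : ∀ d : ℕ, prob d * @ite ℝ (Even d) (Classical.propDecidable _) 1 0 =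
          1 / 2 * (prob d + prob d * (-1) ^ d) := by
        intro d
        rcases Nat.even_or_odd d with h | h
        · rw [if_pos h, h.neg_one_pow]
          ring
        · rw [if_neg (Nat.not_even_iff_odd.2 h), h.neg_one_pow]
          ring
      have h4 : Summable fun d => prob d * (-1 : ℝ) ^ d := by
        refine Summable.of_norm ?_
        have h5 : (fun d => ‖prob d * (-1 : ℝ) ^ d‖) = fun d => |prob d| := by
          funext d
          rw [norm_mul, norm_pow, norm_neg, norm_one, one_pow, mul_one, Real.norm_eq_abs]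
        rw [h5]
        exact hv.sum.summable.abs
      rw [tsum_congr h3, tsum_mul_left, hv.sum.summable.tsum_add h4, hv.sum.tsum_eq, hv.parity]
      norm_num
    rw [h2] at h1
    exact h1
  · exact by_height hf ha hb fun u => Run7.h286.EllLaw.moment K hf u.ne_zero j
  · obtain ⟨h1, h2⟩ := Prod.mk.inj hh
    have h3 := mul_left_cancel₀ ha h1
    have h4 := mul_left_cancel₀ hb h2
    have h5 : D' ≠ 0 := hD'.1.ne_zero
    rw [pow_succ, pow_succ D', h3] at h4
    exact mul_left_cancel₀ (pow_ne_zero 2 h5) h4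

end main

/-- Let `k` be a finite field of characteristic at least five, `K = k(t)`, `(a, b)` in the family
(`deg a ≤ 4 N`, `deg b ≤ 6 N`, `N ≥ 1`, `4 a ^ 3 + 27 b ^ 2` squarefree, irreducible reduction at infinity).
Let `D` run through all squarefree polynomials prime to `4 a ^ 3 + 27 b ^ 2` such that the equation
`y ^ 2 = x ^ 3 + a D ^ 2 x + b D ^ 3` of the twist `E_D` has height at most `B`, `B → ∞`. Then:
(1) the proportion with `|Sel_2(E_D)| = 2 ^ d` tends to `prob d`; (2) the proportion with `dim Sel_2(E_D)` even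
tends to `1 / 2`; (3) the average of `|Sel_2(E_D)| ^ j` tends to `(1 + 2) ... (1 + 2 ^ j)`; (4) the average of
`φ(dim Sel_2(E_D))` tends to `∑ prob d φ(d)` for all `φ` of at most exponential growth; (5) for every `D`
`E_D(K)` has no 2-torsion, `|Sel_2| = [E_D(K) : 2 E_D(K)] |Sha(E_D)[2]|`, and if `Sel_2(E_D)` is trivial, then
`E_D(K)` is uniquely divisible by two and the 2-primary part of the Tate-Shafarevich group is zero; (6) the
equations of different `D` are different. (7) Values: the sum of the `prob d` is `1`, `prob 0 > 0.2097`,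
`prob 0 + prob 1 > 0.629`, the mean is `∑ 1 / (2 ^ j + 1) < 1.2646`. (8) A positive proportion of all `(a, b)`
with `deg a ≤ 4 N`, `deg b ≤ 6 N` belongs to the family. -/
theorem result (k : Type) [Field k] [Finite k] (h6 : (6 : k) ≠ 0)
    (K : Type) [Field K] [Algebra k[X] K] [IsFractionRing k[X] K] :
    (∀ (N : ℕ) (a b : k[X]), 1 ≤ N → InFamily N a b → LawByHeight K a b) ∧
    Values ∧ PositiveProportion k := by
  have h2 : (2 : k) ≠ 0 := by
    intro h
    apply h6
    rw [show (6 : k) = 2 * 3 by norm_num, h, zero_mul]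
  refine ⟨fun N a b hN hf => ?_, Run7.h286.EllLaw.values, Run7.h286.EllLaw.many h6⟩
  obtain ⟨ha, hb⟩ := ne_zero_of hN hf
  exact lawByHeight K (hf.fm hN h2) ha hb

end Pool.Agent.Results.MP_81dc49_nt.TwistsByHeight
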